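import Mathlib
import Pool.Prelude.Def_F_6b01053b
import Pool.Agent.H60.CT.NearBip
import Pool.Agent.H60.CT.Circ
import Pool.Agent.H60.CT.Two

set_option autoImplicit false

namespace Pool.Agent.Results.MP_a2fde6_co.OddWheels

open SimpleGraph Pool.Agent.H60.CT

/-- A two-colouring without monochromatic triangles, built vertex by vertex. -/
lemma exists_coloring {n : ℕ} (G : SimpleGraph (Fin n)) (U : Finset (Fin n))
    (h : ∀ S ⊆ U, S.Nonempty → ∃ v ∈ S, NB G (nb G S v)) :
    ∀ (k : ℕ) (S : Finset (Fin n)), S ⊆ U → S.card = k →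
      ∃ c : Fin n → Fin n → Bool, (∀ a b, c a b = c b a) ∧
        ∀ a ∈ S, ∀ b ∈ S, ∀ d ∈ S, G.Adj a b → G.Adj a d → G.Adj b d →
          ¬ (c a b = c a d ∧ c a b = c b d) := by
  classical
  intro k
  induction k with
  | zero =>
    intro S _ hS
    have h0 : S = ∅ := Finset.card_eq_zero.mp hS
    exact ⟨fun _ _ => true, fun _ _ => rfl, by simp [h0]⟩
  | succ k ih =>
    intro S hSU hS
    have hne : S.Nonempty := Finset.card_pos.1 (by omega)
    obtain ⟨v, hv, A, x, y, hA⟩ := h S hSU hne
    obtain ⟨c', hsym, hc'⟩ := ih (S.erase v) ((Finset.erase_subset _ _).trans hSU)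
      (by rw [Finset.card_erase_of_mem hv]; omega)
    -- colour of the edge `v a`
    let f : Fin n → Bool := fun a => if (a ∈ A ↔ x ∈ A) then !(c' x y) else c' x y
    have key : ∀ a ∈ S, ∀ b ∈ S, G.Adj v a → G.Adj v b → G.Adj a b →
        ¬ (f a = f b ∧ f a = c' a b) := by
      rintro a ha b hb hva hvb hab ⟨h1, h2⟩
      by_cases hs : (a ∈ A ↔ b ∈ A)
      · rcases hA a ((mem_nb G).2 ⟨ha, hva⟩) b ((mem_nb G).2 ⟨hb, hvb⟩) hab hs with
          ⟨rfl, rfl⟩ | ⟨rfl, rfl⟩
        · simp [f] at h2
        · have hsb : (b ∈ A ↔ a ∈ A) := hs.symm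
          have : f a = !(c' b a) := by simp [f, hs]
          rw [this, hsym b a] at h2
          simp at h2
      · by_cases ha' : (a ∈ A ↔ x ∈ A)
        · have hb' : ¬ (b ∈ A ↔ x ∈ A) := by tauto
          have e1 : f a = !(c' x y) := by simp only [f, if_pos ha']
          have e2 : f b = c' x y := by simp only [f, if_neg hb']
          rw [e1, e2] at h1
          simp at h1
        · have hb' : (b ∈ A ↔ x ∈ A) := by tauto
          have e1 : f a = c' x y := by simp only [f, if_neg ha']
          have e2 : f b = !(c' x y) := by simp only [f, if_pos hb']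
          rw [e1, e2] at h1
          simp at h1
    let c : Fin n → Fin n → Bool := fun a b =>
      if a = v then f b else if b = v then f a else c' a b
    have hcv : ∀ b, c v b = f b := fun b => by simp [c]
    have hcv' : ∀ a, a ≠ v → c a v = f a := fun a ha => by simp [c, ha]
    have hcc : ∀ a b, a ≠ v → b ≠ v → c a b = c' a b := fun a b ha hb => by simp [c, ha, hb]
    refine ⟨c, ?_, ?_⟩
    · intro a b
      by_cases ha : a = v
      · by_cases hb : b = v
        · rw [ha, hb]
        · rw [ha, hcv, hcv' b hb]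
      · by_cases hb : b = v
        · rw [hb, hcv, hcv' a ha]
        · rw [hcc a b ha hb, hcc b a hb ha, hsym]
    · rintro a ha b hb d hd hab had hbd ⟨h1, h2⟩
      by_cases hav : a = v
      · subst hav
        have hbv : b ≠ a := fun h => G.loopless.irrefl a (h ▸ hab)
        have hdv : d ≠ a := fun h => G.loopless.irrefl a (h ▸ had)
        rw [hcv, hcv] at h1
        rw [hcv, hcc b d hbv hdv] at h2
        exact key b hb d hd hab had hbd ⟨h1, h2⟩
      · by_cases hbv : b = v
        · subst hbv
          have hdv : d ≠ b := fun h => G.loopless.irrefl b (h ▸ hbd)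
          rw [hcv' a hav, hcc a d hav hdv] at h1
          rw [hcv' a hav, hcv] at h2
          exact key a ha d hd hab.symm hbd had ⟨h2, h1⟩
        · by_cases hdv : d = v
          · subst hdv
            rw [hcc a b hav hbv, hcv' a hav] at h1
            rw [hcc a b hav hbv, hcv' b hbv] at h2
            exact key a ha b hb had.symm hbd.symm hab ⟨h1.symm.trans h2, h1.symm⟩
          · rw [hcc a b hav hbv, hcc a d hav hdv] at h1
            rw [hcc a b hav hbv, hcc b d hbv hdv] at h2
            exact hc' a (Finset.mem_erase.2 ⟨hav, ha⟩) b (Finset.mem_erase.2 ⟨hbv, hb⟩) d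
              (Finset.mem_erase.2 ⟨hdv, hd⟩) hab had hbd ⟨h1, h2⟩

/-- The inequality for graphs in which every subgraph has a good vertex. -/
lemma tau_le_of_good {n : ℕ} (G : SimpleGraph (Fin n)) (U : Finset (Fin n))
    (h : ∀ S ⊆ U, S.Nonempty → ∃ v ∈ S, NB G (nb G S v)) :
    G.cliqueTransversalNumber ≤ n - N514b8c3a.H U.card := by
  classical
  obtain ⟨c, hsym, hc⟩ := exists_coloring G U h U.card U (Finset.Subset.refl _) rfl
  let R : SimpleGraph (Fin n) :=
    { Adj := fun a b => G.Adj a b ∧ a ∈ U ∧ b ∈ U ∧ c a b = true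
      symm := ⟨fun a b h => ⟨h.1.symm, h.2.2.1, h.2.1, by rw [hsym]; exact h.2.2.2⟩⟩
      loopless := ⟨fun a h => G.loopless.irrefl a h.1⟩ }
  let B : SimpleGraph (Fin n) :=
    { Adj := fun a b => G.Adj a b ∧ a ∈ U ∧ b ∈ U ∧ c a b = false
      symm := ⟨fun a b h => ⟨h.1.symm, h.2.2.1, h.2.1, by rw [hsym]; exact h.2.2.2⟩⟩
      loopless := ⟨fun a h => G.loopless.irrefl a h.1⟩ }
  have hR : R.CliqueFree 3 := by
    intro t ht
    obtain ⟨a, b, d, hab, had, hbd, rfl⟩ := is3Clique_iff.mp ht
    exact hc a hab.2.1 b hab.2.2.1 d had.2.2.1 hab.1 had.1 hbd.1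
      ⟨hab.2.2.2.trans had.2.2.2.symm, hab.2.2.2.trans hbd.2.2.2.symm⟩
  have hB : B.CliqueFree 3 := by
    intro t ht
    obtain ⟨a, b, d, hab, had, hbd, rfl⟩ := is3Clique_iff.mp ht
    exact hc a hab.2.1 b hab.2.2.1 d had.2.2.1 hab.1 had.1 hbd.1
      ⟨hab.2.2.2.trans had.2.2.2.symm, hab.2.2.2.trans hbd.2.2.2.symm⟩
  apply tau_le_of_two n G U R B hR hB
  intro a ha b hb hab
  cases hcab : c a b with
  | true => exact Or.inl ⟨hab, ha, hb, hcab⟩
  | false => exact Or.inr ⟨hab, ha, hb, hcab⟩

/-- In a `K₄`-free graph, a vertex with at most seven neighbours in `S` is good. -/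
lemma good_of_le_seven {n : ℕ} {G : SimpleGraph (Fin n)} (hG : G.CliqueFree 4)
    (S : Finset (Fin n)) (v : Fin n) (h7 : (nb G S v).card ≤ 7) : NB G (nb G S v) := by
  classical
  apply NB_of_card_le_seven (nb G S v).card (nb G S v) rfl h7 ?_ ⟨v⟩
  intro a ha b hb c hc hab hac hbc
  have hva := ((mem_nb G).1 ha).2
  have hvb := ((mem_nb G).1 hb).2
  have hvc := ((mem_nb G).1 hc).2
  apply hG {v, a, b, c}
  rw [isNClique_iff]
  constructor
  · simp only [Finset.coe_insert, Finset.coe_singleton]
    intro p hp q hq hpq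
    simp only [Set.mem_insert_iff, Set.mem_singleton_iff] at hp hq
    rcases hp with rfl | rfl | rfl | rfl <;> rcases hq with rfl | rfl | rfl | rfl <;>
      first
        | exact absurd rfl hpq
        | assumption
        | (apply SimpleGraph.Adj.symm; assumption)
  · rw [Finset.card_insert_of_notMem, Finset.card_insert_of_notMem,
      Finset.card_insert_of_notMem, Finset.card_singleton]
    · simp [hbc.ne]
    · simp [hab.ne, hac.ne]
    · simp [hva.ne, hvb.ne, hvc.ne]

/-- The complement of a neighbourhood is a clique transversal. -/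
lemma tau_le_degree {n : ℕ} (G : SimpleGraph (Fin n)) (v : Fin n) :
    G.cliqueTransversalNumber ≤ n - (nb G Finset.univ v).card := by
  classical
  set N := nb G Finset.univ v with hN
  have hmemN : ∀ u, u ∈ N ↔ G.Adj v u := fun u => by rw [hN, mem_nb]; simp
  have hT : G.IsCliqueTransversal (Finset.univ \ N) := by
    intro t ht
    by_contra hcon
    push Not at hcon
    have htN : ∀ u ∈ t, u ∈ N := by
      intro u hu
      by_contra h
      exact hcon u hu (by simp [h])
    obtain ⟨hmax, hcard⟩ := ht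
    have hvt : v ∉ t := by
      intro h
      exact G.loopless.irrefl v ((hmemN v).1 (htN v h))
    have hcl : G.IsClique ((insert v t : Finset (Fin n)) : Set (Fin n)) := by
      rw [Finset.coe_insert, isClique_insert]
      refine ⟨hmax.1, ?_⟩
      intro u hu _
      exact (hmemN u).1 (htN u hu)
    have hle := hmax.2 hcl (Finset.subset_insert v t)
    exact hvt (hle (Finset.mem_insert_self v t))
  have hTcard : (Finset.univ \ N).card = n - N.card := by
    rw [Finset.card_sdiff_of_subset (Finset.subset_univ _)]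
    simp
  exact Nat.sInf_le ⟨_, hT, hTcard⟩

open Classical in
/-- The inequality `τ(G) ≤ n - H(n)` for every `K₄`-free graph `G` on `n ≤ 35` vertices, and for
every `K₄`-free graph with a vertex set `U`, `H(|U|) ≥ H(n)`, such that each nonempty `S ⊆ U`
contains a vertex `v` that has at most seven neighbours in `S` or for which `G[N(v) ∩ S]` becomes
bipartite after deleting at most one edge. -/
theorem result (n : ℕ) (G : SimpleGraph (Fin n)) (hG : G.CliqueFree 4)
    (h : n ≤ 35 ∨ ∃ U : Finset (Fin n), N514b8c3a.H n ≤ N514b8c3a.H U.card ∧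
      ∀ S ⊆ U, S.Nonempty → ∃ v ∈ S, (S.filter (fun u => G.Adj v u)).card ≤ 7 ∨
        ∃ (A : Finset (Fin n)) (x y : Fin n), ∀ a ∈ S, ∀ b ∈ S, G.Adj v a → G.Adj v b →
          G.Adj a b → (a ∈ A ↔ b ∈ A) → (a = x ∧ b = y) ∨ (a = y ∧ b = x)) :
    G.cliqueTransversalNumber ≤ n - N514b8c3a.H n := by
  have hfil : ∀ (S : Finset (Fin n)) (v : Fin n),
      nb G S v = S.filter (fun u => G.Adj v u) := by
    intro S v
    ext u
    rw [mem_nb]
    simp
  rcases h with h35 | ⟨U, hU, h⟩
  · by_cases hdeg : ∃ v, 8 ≤ (nb G Finset.univ v).card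
    · obtain ⟨v, hv⟩ := hdeg
      have h1 := tau_le_degree G v
      have h2 := H_le_eight n h35
      omega
    · push Not at hdeg
      have h1 := tau_le_of_good G Finset.univ (by
        intro S _ hS
        obtain ⟨v, hv⟩ := hS
        refine ⟨v, hv, good_of_le_seven hG S v ?_⟩
        have hsub : nb G S v ⊆ nb G Finset.univ v := by
          intro u hu
          rw [mem_nb] at hu ⊢
          exact ⟨Finset.mem_univ _, hu.2⟩
        have := Finset.card_le_card hsub
        have := hdeg v
        omega)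
      simpa using h1
  · have h1 := tau_le_of_good G U (by
      intro S hSU hS
      obtain ⟨v, hv, h7 | ⟨A, x, y, hA⟩⟩ := h S hSU hS
      · exact ⟨v, hv, good_of_le_seven hG S v (by rw [hfil]; exact h7)⟩
      · refine ⟨v, hv, A, x, y, ?_⟩
        intro a ha b hb hab hs
        rw [mem_nb] at ha hb
        exact hA a ha.1 b hb.1 ha.2 hb.2 hab hs)
    omega

end Pool.Agent.Results.MP_a2fde6_co.OddWheels
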